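import Pool.Agent.H963CF.L739.CGSign2

set_option autoImplicit false
set_option linter.unusedSectionVars false

namespace Pool.Agent.H963CF.L739.CG

open Set Topology Filter
open Pool.Agent.H963CF.L739.CT (Ctm ctm_union log_unique circle_exp_eq_one const_of_int cutwire bump ctm_component clopen_nhd_component ctm_iInter_directed sub_of_split exists_open_closure_disjoint log_of_spanZero SpanZero)

section

variable {M : Type*} [TopologicalSpace M] [CompactSpace M] [T2Space M]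

/-- both-sided minimality -/
theorem minimal_both (hM : Good M) {Z : Set (M × M)} (hZ : Ctm Z)
    (h : Prod.snd '' Z ⊆ Prod.fst '' Z) (hd : ∀ p ∈ Z, p.1 ≠ p.2) :
    ∃ Y ⊆ Z, Ctm Y ∧ Prod.fst '' Y = Prod.snd '' Y ∧ (∀ p ∈ Y, p.1 ≠ p.2) ∧
      ∀ K ⊆ Y, Ctm K → (Prod.fst '' K ⊆ Prod.snd '' K ∨ Prod.snd '' K ⊆ Prod.fst '' K) → K = Y := by
  obtain ⟨Y, hYZ, hY, hYe, hYd, hYmin⟩ := minimal_semi hM hZ h hd
  refine ⟨Y, hYZ, hY, hYe, hYd, ?_⟩
  intro K hK hKc hKs
  rcases hKs with hKs | hKs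
  · have hsw : Ctm (Prod.swap '' K) := hKc.image continuous_swap.continuousOn
    have e1 : ∀ S : Set (M × M), Prod.fst '' (Prod.swap '' S) = Prod.snd '' S := by
      intro S; rw [image_image]; rfl
    have e2 : ∀ S : Set (M × M), Prod.snd '' (Prod.swap '' S) = Prod.fst '' S := by
      intro S; rw [image_image]; rfl
    obtain ⟨Y', hY'K, hY', hY'e, -, -⟩ := minimal_semi hM hsw (by rw [e1, e2]; exact hKs) (by
      rintro _ ⟨p, hp, rfl⟩
      exact (hYd p (hK hp)).symm)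
    have hsub : Prod.swap '' Y' ⊆ K := by
      rintro _ ⟨p, hp, rfl⟩
      obtain ⟨q, hq, rfl⟩ := hY'K hp
      simpa using hq
    have := hYmin (Prod.swap '' Y') (hsub.trans hK) (hY'.image continuous_swap.continuousOn)
      (by rw [e1, e2, hY'e])
    exact Subset.antisymm hK (this ▸ hsub)
  · exact hYmin K hK hKc hKs

/-- logs on closed connected sets -/
def LogOn (M : Type*) [TopologicalSpace M] (S : Set M) : Prop :=
  ∀ {g : M → Circle}, ContinuousOn g S →
    ∃ l : M → ℝ, ContinuousOn l S ∧ ∀ x ∈ S, Circle.exp (l x) = g x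

theorem unicoh_of_log {P Q : Set M} (hP : Ctm P) (hQ : Ctm Q) (hlog : LogOn M (P ∪ Q)) :
    IsPreconnected (P ∩ Q) := by
  classical
  rw [isPreconnected_closed_iff]
  intro t t' ht ht' hcov hn hn'
  by_contra hcon
  rw [not_nonempty_iff_eq_empty] at hcon
  have hPc := hP.1.isClosed
  have hQc := hQ.1.isClosed
  obtain ⟨a, ⟨haP, haQ⟩, hat⟩ := hn
  obtain ⟨b, ⟨hbP, hbQ⟩, hbt⟩ := hn'
  have hA : IsClosed (P ∩ Q ∩ t) := (hPc.inter hQc).inter ht
  have hB : IsClosed (P ∩ Q ∩ t') := (hPc.inter hQc).inter ht'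
  have hAB : Disjoint (P ∩ Q ∩ t) (P ∩ Q ∩ t') := by
    rw [disjoint_left]
    rintro x ⟨hx, hxt⟩ ⟨-, hxt'⟩
    have : x ∈ P ∩ Q ∩ (t ∩ t') := ⟨hx, hxt, hxt'⟩
    rw [hcon] at this
    exact this
  obtain ⟨u, hu0, hu1, hu⟩ := exists_continuous_zero_one_of_isClosed hA hB hAB
  set g : M → Circle := fun x => if x ∈ P then Circle.exp (Real.pi * u x)
    else Circle.exp (-(Real.pi * u x)) with hg
  have huc : Continuous u := u.continuous
  have gP : ∀ x ∈ P, g x = Circle.exp (Real.pi * u x) := by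
    intro x hx; simp [hg, hx]
  have gQ : ∀ x ∈ Q, g x = Circle.exp (-(Real.pi * u x)) := by
    intro x hx
    by_cases hxP : x ∈ P
    · rw [gP x hxP]
      have : x ∈ t ∪ t' := hcov ⟨hxP, hx⟩
      rcases this with h | h
      · have : u x = 0 := hu0 ⟨⟨hxP, hx⟩, h⟩
        rw [this]; simp
      · have : u x = 1 := hu1 ⟨⟨hxP, hx⟩, h⟩
        rw [this, mul_one]
        ext
        rw [Circle.coe_exp, Circle.coe_exp]
        push_cast
        rw [neg_mul, Complex.exp_neg, Complex.exp_pi_mul_I]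
        norm_num
    · simp [hg, hxP]
  have hgc : ContinuousOn g (P ∪ Q) := by
    apply ContinuousOn.union_of_isClosed _ _ hPc hQc
    · have : ContinuousOn (fun x => Circle.exp (Real.pi * u x)) P :=
        (Circle.exp.continuous.comp (continuous_const.mul huc)).continuousOn
      exact this.congr gP
    · have : ContinuousOn (fun x => Circle.exp (-(Real.pi * u x))) Q :=
        (Circle.exp.continuous.comp (continuous_const.mul huc).neg).continuousOn
      exact this.congr gQ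
  obtain ⟨l, hl, hl'⟩ := hlog hgc
  have e1 := log_unique hP.2.isPreconnected (hl.mono subset_union_left)
    (g := fun x => Real.pi * u x) (continuous_const.mul huc).continuousOn
    (fun x hx => by rw [hl' x (Or.inl hx), gP x hx]) haP hbP
  have e2 := log_unique hQ.2.isPreconnected (hl.mono subset_union_right)
    (g := fun x => -(Real.pi * u x)) (continuous_const.mul huc).neg.continuousOn
    (fun x hx => by rw [hl' x (Or.inr hx), gQ x hx]) haQ hbQ
  have ua : u a = 0 := hu0 ⟨⟨haP, haQ⟩, hat⟩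
  have ub : u b = 1 := hu1 ⟨⟨hbP, hbQ⟩, hbt⟩
  simp only [ua, ub] at e1 e2
  have := Real.pi_pos
  linarith

/-- gluing logs -/
theorem log_glue {P Q : Set M} (hP : IsClosed P) (hQ : IsClosed Q) (hPQ : IsPreconnected (P ∩ Q))
    (hlP : LogOn M P) (hlQ : LogOn M Q) : LogOn M (P ∪ Q) := by
  classical
  intro g hg
  obtain ⟨l1, hl1, hl1'⟩ := hlP (hg.mono subset_union_left)
  obtain ⟨l2, hl2, hl2'⟩ := hlQ (hg.mono subset_union_right)
  -- constant difference
  have hconst : ∃ n : ℤ, ∀ x ∈ P ∩ Q, l1 x - l2 x = n * (2 * Real.pi) := by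
    by_cases hne : (P ∩ Q).Nonempty
    · obtain ⟨x0, hx0⟩ := hne
      have h0 : Circle.exp (l1 x0 - l2 x0) = 1 := by
        rw [Circle.exp_sub, hl1' x0 hx0.1, hl2' x0 hx0.2]; simp
      obtain ⟨n, hn⟩ := circle_exp_eq_one h0
      refine ⟨n, fun x hx => ?_⟩
      rw [← hn]
      exact log_unique hPQ (hl1.mono inter_subset_left) (hl2.mono inter_subset_right)
        (fun y hy => by rw [hl1' y hy.1, hl2' y hy.2]) hx hx0
    · exact ⟨0, fun x hx => absurd ⟨x, hx⟩ hne⟩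
  obtain ⟨n, hn⟩ := hconst
  set l : M → ℝ := fun x => if x ∈ P then l1 x else l2 x + n * (2 * Real.pi) with hl
  have lP : ∀ x ∈ P, l x = l1 x := by intro x hx; simp [hl, hx]
  have lQ : ∀ x ∈ Q, l x = l2 x + n * (2 * Real.pi) := by
    intro x hx
    by_cases hxP : x ∈ P
    · rw [lP x hxP]
      have := hn x ⟨hxP, hx⟩
      linarith
    · simp [hl, hxP]
  refine ⟨l, ?_, ?_⟩
  · apply ContinuousOn.union_of_isClosed _ _ hP hQ
    · exact hl1.congr lP
    · exact (hl2.add continuousOn_const).congr lQ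
  · rintro x (hx | hx)
    · rw [lP x hx, hl1' x hx]
    · rw [lQ x hx, Circle.exp_add, hl2' x hx, Pool.Agent.H963CF.L739.CT.circle_exp_int, mul_one]

/-- span zero on a subset -/
def SZ (A : Set M) : Prop := ∀ Z : Set (M × M), IsCompact Z → IsConnected Z → Z ⊆ A ×ˢ A →
  Prod.fst '' Z = Prod.snd '' Z → ∃ p ∈ Z, p.1 = p.2

theorem SZ.logOn {A S : Set M} (hA : SZ A) (hS : Ctm S) (hSA : S ⊆ A) : LogOn M S := by
  classical
  intro g hg
  have : CompactSpace S := isCompact_iff_compactSpace.1 hS.1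
  have : ConnectedSpace S := isConnected_iff_connectedSpace.1 hS.2
  have hsz : SpanZero S := by
    intro Z hZc hZ he
    set Z' : Set (M × M) := Prod.map Subtype.val Subtype.val '' Z with hZ'
    have hcont : Continuous (Prod.map Subtype.val Subtype.val : S × S → M × M) :=
      continuous_subtype_val.prodMap continuous_subtype_val
    obtain ⟨p, hp, hpe⟩ := hA Z' (hZc.image hcont) (hZ.image _ hcont.continuousOn) (by
      rintro _ ⟨⟨x, y⟩, -, rfl⟩
      exact ⟨hSA x.2, hSA y.2⟩) (by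
      rw [hZ', image_image, image_image]
      simp only [Prod.map_fst, Prod.map_snd]
      rw [← image_image Subtype.val Prod.fst, ← image_image Subtype.val Prod.snd, he])
    obtain ⟨q, hq, rfl⟩ := hp
    exact ⟨q, hq, Subtype.val_injective hpe⟩
  obtain ⟨l, hl, hl'⟩ := log_of_spanZero hsz (g := fun x : S => g x)
    (continuousOn_iff_continuous_domRestrict.1 hg)
  refine ⟨fun x => if h : x ∈ S then l ⟨x, h⟩ else 0, ?_, ?_⟩
  · rw [continuousOn_iff_continuous_domRestrict]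
    convert hl using 1
    funext x
    simp
  · intro x hx
    simp only [hx, dif_pos]
    exact hl' ⟨x, hx⟩

/-- no triods, with the separated definition -/
def NoTriod (M : Type*) [TopologicalSpace M] : Prop :=
  ∀ T C : Set M, Ctm T → Ctm C → C ⊆ T → ∀ A B D : Set M, A.Nonempty → B.Nonempty → D.Nonempty →
    T \ C = A ∪ B ∪ D → Disjoint (closure A) B → Disjoint A (closure B) →
    Disjoint (closure A) D → Disjoint A (closure D) →
    Disjoint (closure B) D → Disjoint B (closure D) → False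

/-- three arms attached to a core -/
theorem NoTriod.arms (hT : NoTriod M) {I D1 D2 D3 : Set M} (hI : Ctm I) (h1 : Ctm D1)
    (h2 : Ctm D2) (h3 : Ctm D3) (m1 : (I ∩ D1).Nonempty) (m2 : (I ∩ D2).Nonempty)
    (m3 : (I ∩ D3).Nonempty) (n1 : ¬ D1 ⊆ I) (n2 : ¬ D2 ⊆ I) (n3 : ¬ D3 ⊆ I)
    (d12 : D1 ∩ D2 ⊆ I) (d13 : D1 ∩ D3 ⊆ I) (d23 : D2 ∩ D3 ⊆ I) : False := by
  have c1 : Ctm (I ∪ D1) := ctm_union hI h1 m1
  have c2 : Ctm (I ∪ D1 ∪ D2) := ctm_union c1 h2 (by
    obtain ⟨x, hx, hx'⟩ := m2; exact ⟨x, Or.inl hx, hx'⟩)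
  have c3 : Ctm (I ∪ D1 ∪ D2 ∪ D3) := ctm_union c2 h3 (by
    obtain ⟨x, hx, hx'⟩ := m3; exact ⟨x, Or.inl (Or.inl hx), hx'⟩)
  have cl : ∀ {D : Set M}, Ctm D → closure (D \ I) ⊆ D := fun hD =>
    closure_minimal sdiff_subset hD.1.isClosed
  refine hT (I ∪ D1 ∪ D2 ∪ D3) I c3 hI
    (fun x hx => Or.inl (Or.inl (Or.inl hx))) (D1 \ I) (D2 \ I) (D3 \ I)
    (not_subset.1 n1) (not_subset.1 n2) (not_subset.1 n3) ?_ ?_ ?_ ?_ ?_ ?_ ?_
  · ext x
    simp only [Set.mem_sdiff, mem_union]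
    tauto
  · rw [disjoint_left]; intro x hx hx'; exact hx'.2 (d12 ⟨cl h1 hx, hx'.1⟩)
  · rw [disjoint_left]; intro x hx hx'; exact hx.2 (d12 ⟨hx.1, cl h2 hx'⟩)
  · rw [disjoint_left]; intro x hx hx'; exact hx'.2 (d13 ⟨cl h1 hx, hx'.1⟩)
  · rw [disjoint_left]; intro x hx hx'; exact hx.2 (d13 ⟨hx.1, cl h3 hx'⟩)
  · rw [disjoint_left]; intro x hx hx'; exact hx'.2 (d23 ⟨cl h2 hx, hx'.1⟩)
  · rw [disjoint_left]; intro x hx hx'; exact hx.2 (d23 ⟨hx.1, cl h3 hx'⟩)

end

section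

variable {M : Type*} [TopologicalSpace M] [CompactSpace M] [T2Space M] {H K : Set M}

/-- the two-piece setting -/
structure Two (H K : Set M) : Prop where
  hH : Ctm H
  hK : Ctm K
  hI : Ctm (H ∩ K)
  hu : H ∪ K = univ
  sH : SZ H
  sK : SZ K
  nt : NoTriod M

theorem Two.symm (t : Two H K) : Two K H :=
  ⟨t.hK, t.hH, by rw [inter_comm]; exact t.hI, by rw [union_comm]; exact t.hu, t.sK, t.sH, t.nt⟩

theorem Two.comp_meets (t : Two H K) {N : Set M} (hN : Ctm N) {a : M} (haN : a ∈ N) (haH : a ∈ H)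
    (hr : ∃ r ∈ N, r ∉ H) : (H ∩ K ∩ connectedComponentIn (N ∩ H) a).Nonempty := by
  obtain ⟨r, hr, hrH⟩ := hr
  have hO : IsOpen (Hᶜ) := t.hH.1.isClosed.isOpen_compl
  have e : N \ Hᶜ = N ∩ H := by rw [sdiff_compl]
  obtain ⟨w, hw, hw'⟩ := bump hN hO ⟨r, hr, hrH⟩ haN (by simpa using haH)
  rw [e] at hw
  have hcl : closure Hᶜ ⊆ K := by
    apply closure_minimal _ t.hK.1.isClosed
    intro x hx
    have : x ∈ H ∪ K := by rw [t.hu]; exact mem_univ x
    exact this.resolve_left hx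
  exact ⟨w, ⟨(connectedComponentIn_subset _ _ hw).2, hcl hw'⟩, hw⟩

theorem Two.comp_all (t : Two H K) {N : Set M} (hN : Ctm N) {a b : M} (haN : a ∈ N) (haH : a ∈ H)
    (haK : a ∉ K) (hbN : b ∈ N) (hbK : b ∈ K) (hbH : b ∉ H) :
    ∀ x ∈ N, x ∉ K → x ∈ connectedComponentIn (N ∩ H) a := by
  intro x hxN hxK
  by_contra hx
  have hxH : x ∈ H := by
    have : x ∈ H ∪ K := by rw [t.hu]; exact mem_univ x
    exact this.resolve_right hxK
  have hNH : IsCompact (N ∩ H) := hN.1.inter t.hH.1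
  have hNK : IsCompact (N ∩ K) := hN.1.inter t.hK.1
  have m1 := t.comp_meets hN haN haH ⟨b, hbN, hbH⟩
  have m2 := t.comp_meets hN hxN hxH ⟨b, hbN, hbH⟩
  have m3 := t.symm.comp_meets hN hbN hbK ⟨a, haN, haK⟩
  rw [inter_comm K H] at m3
  have c1 : Ctm (connectedComponentIn (N ∩ H) a) := ctm_component hNH ⟨haN, haH⟩
  have c2 : Ctm (connectedComponentIn (N ∩ H) x) := ctm_component hNH ⟨hxN, hxH⟩
  have c3 : Ctm (connectedComponentIn (N ∩ K) b) := ctm_component hNK ⟨hbN, hbK⟩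
  have sa : a ∈ connectedComponentIn (N ∩ H) a := mem_connectedComponentIn ⟨haN, haH⟩
  have sx : x ∈ connectedComponentIn (N ∩ H) x := mem_connectedComponentIn ⟨hxN, hxH⟩
  have sb : b ∈ connectedComponentIn (N ∩ K) b := mem_connectedComponentIn ⟨hbN, hbK⟩
  refine t.nt.arms t.hI c1 c2 c3 m1 m2 m3 (fun h => haK (h sa).2) (fun h => hxK (h sx).2)
    (fun h => hbH (h sb).1) ?_ ?_ ?_
  · rintro y ⟨hy1, hy2⟩
    exfalso
    apply hx
    rw [connectedComponentIn_eq hy1, ← connectedComponentIn_eq hy2]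
    exact sx
  · rintro y ⟨hy1, hy2⟩
    exact ⟨(connectedComponentIn_subset _ _ hy1).2, (connectedComponentIn_subset _ _ hy2).2⟩
  · rintro y ⟨hy1, hy2⟩
    exact ⟨(connectedComponentIn_subset _ _ hy1).2, (connectedComponentIn_subset _ _ hy2).2⟩

theorem Two.comps_meet (t : Two H K) {N : Set M} (hN : Ctm N) {a b : M} (haN : a ∈ N) (haH : a ∈ H)
    (haK : a ∉ K) (hbN : b ∈ N) (hbK : b ∈ K) (hbH : b ∉ H) :
    (connectedComponentIn (N ∩ H) a ∩ connectedComponentIn (N ∩ K) b).Nonempty := by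
  by_contra hemp
  rw [not_nonempty_iff_eq_empty] at hemp
  have hNH : IsCompact (N ∩ H) := hN.1.inter t.hH.1
  have hNK : IsCompact (N ∩ K) := hN.1.inter t.hK.1
  have ca := t.comp_all hN haN haH haK hbN hbK hbH
  have c3 : Ctm (connectedComponentIn (N ∩ K) b) := ctm_component hNK ⟨hbN, hbK⟩
  obtain ⟨P, Q, h1, h2, h3, h4, h5, h6⟩ := clopen_nhd_component hNH ⟨haN, haH⟩ c3.1.isClosed hemp
  have hdP : connectedComponentIn (N ∩ K) b ∩ P = ∅ := by
    rw [eq_empty_iff_forall_notMem]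
    rintro y ⟨hy, hyP⟩
    have : y ∈ N ∩ H := by rw [← h3]; exact Or.inl hyP
    exact disjoint_left.1 h4 hyP (h6 ⟨this, hy⟩)
  obtain ⟨P', Q', g1, g2, g3, g4, g5, g6⟩ := clopen_nhd_component hNK ⟨hbN, hbK⟩ h1.isClosed hdP
  have hpc := hN.2.isPreconnected
  rw [isPreconnected_closed_iff] at hpc
  have haP : a ∈ P := h5 (mem_connectedComponentIn ⟨haN, haH⟩)
  have hbP : b ∈ P' := g5 (mem_connectedComponentIn ⟨hbN, hbK⟩)
  obtain ⟨y, hyN, hy1, hy2⟩ := hpc (P ∪ Q') P' (h1.isClosed.union g2.isClosed) g1.isClosed (by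
    intro y hy
    by_cases hyK : y ∈ K
    · have : y ∈ P' ∪ Q' := by rw [g3]; exact ⟨hy, hyK⟩
      rcases this with h | h
      · exact Or.inr h
      · exact Or.inl (Or.inr h)
    · exact Or.inl (Or.inl (h5 (ca y hy hyK)))) ⟨a, haN, Or.inl haP⟩ ⟨b, hbN, hbP⟩
  rcases hy1 with h | h
  · have : y ∈ N ∩ K := by rw [← g3]; exact Or.inl hy2
    exact disjoint_left.1 g4 hy2 (g6 ⟨this, h⟩)
  · exact disjoint_left.1 g4 hy2 h

theorem Two.inter_eq (t : Two H K) {N : Set M} (hN : Ctm N) {a b : M} (haN : a ∈ N) (haH : a ∈ H)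
    (haK : a ∉ K) (hbN : b ∈ N) (hbK : b ∈ K) (hbH : b ∉ H) :
    N ∩ H = connectedComponentIn (N ∩ H) a := by
  apply Subset.antisymm _ (connectedComponentIn_subset _ _)
  rintro p ⟨hpN, hpH⟩
  by_contra hp
  have ca := t.comp_all hN haN haH haK hbN hbK hbH
  have cb := t.symm.comp_all hN hbN hbK hbH haN haH haK
  have hpK : p ∈ K := by
    by_contra h
    exact hp (ca p hpN h)
  have hNH : IsCompact (N ∩ H) := hN.1.inter t.hH.1
  have hNK : IsCompact (N ∩ K) := hN.1.inter t.hK.1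
  have c3 : Ctm (connectedComponentIn (N ∩ K) b) := ctm_component hNK ⟨hbN, hbK⟩
  obtain ⟨m, hm1, hm2⟩ := t.comps_meet hN haN haH haK hbN hbK hbH
  have s1 := connectedComponentIn_subset _ _ hm1
  have s2 := connectedComponentIn_subset _ _ hm2
  by_cases hpD : p ∈ connectedComponentIn (N ∩ K) b
  · have hpre : IsPreconnected (connectedComponentIn (N ∩ K) b ∩ (H ∩ K)) := by
      apply unicoh_of_log c3 t.hI
      apply t.sK.logOn (ctm_union c3 t.hI ⟨m, hm2, s1.2, s2.2⟩)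
      exact union_subset ((connectedComponentIn_subset _ _).trans inter_subset_right)
        inter_subset_right
    have hsub : connectedComponentIn (N ∩ K) b ∩ (H ∩ K) ⊆ connectedComponentIn (N ∩ H) m :=
      hpre.subset_connectedComponentIn ⟨hm2, s1.2, s2.2⟩ (by
        rintro y ⟨hy, hyH, hyK⟩
        exact ⟨(connectedComponentIn_subset _ _ hy).1, hyH⟩)
    apply hp
    rw [connectedComponentIn_eq hm1]
    exact hsub ⟨hpD, hpH, hpK⟩
  · -- split off p
    have hdis1 : connectedComponentIn (N ∩ H) a ∩ {p} = ∅ := by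
      rw [eq_empty_iff_forall_notMem]
      rintro y ⟨hy, hy'⟩
      rw [mem_singleton_iff] at hy'
      subst hy'
      exact hp hy
    have hdis2 : connectedComponentIn (N ∩ K) b ∩ {p} = ∅ := by
      rw [eq_empty_iff_forall_notMem]
      rintro y ⟨hy, hy'⟩
      rw [mem_singleton_iff] at hy'
      subst hy'
      exact hpD hy
    obtain ⟨P, Q, h1, h2, h3, h4, h5, h6⟩ := clopen_nhd_component hNH ⟨haN, haH⟩
      isClosed_singleton hdis1
    obtain ⟨P', Q', g1, g2, g3, g4, g5, g6⟩ := clopen_nhd_component hNK ⟨hbN, hbK⟩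
      isClosed_singleton hdis2
    have hpQ : p ∈ Q := h6 ⟨⟨hpN, hpH⟩, rfl⟩
    have hpQ' : p ∈ Q' := g6 ⟨⟨hpN, hpK⟩, rfl⟩
    have haP : a ∈ P := h5 (mem_connectedComponentIn ⟨haN, haH⟩)
    have hpc := hN.2.isPreconnected
    rw [isPreconnected_closed_iff] at hpc
    obtain ⟨y, hyN, hy1, hy2⟩ := hpc (P ∪ P') (Q ∩ Q') (h1.isClosed.union g1.isClosed)
      (h2.isClosed.inter g2.isClosed) (by
        intro y hy
        by_cases hyK : y ∈ K
        · by_cases hyH : y ∈ H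
          · have e1 : y ∈ P ∪ Q := by rw [h3]; exact ⟨hy, hyH⟩
            have e2 : y ∈ P' ∪ Q' := by rw [g3]; exact ⟨hy, hyK⟩
            rcases e1 with e1 | e1
            · exact Or.inl (Or.inl e1)
            · rcases e2 with e2 | e2
              · exact Or.inl (Or.inr e2)
              · exact Or.inr ⟨e1, e2⟩
          · exact Or.inl (Or.inr (g5 (cb y hy hyH)))
        · exact Or.inl (Or.inl (h5 (ca y hy hyK)))) ⟨a, haN, Or.inl haP⟩ ⟨p, hpN, hpQ, hpQ'⟩
    rcases hy1 with h | h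
    · exact disjoint_left.1 h4 h hy2.1
    · exact disjoint_left.1 g4 h hy2.2

theorem Two.logOn (t : Two H K) {N : Set M} (hN : Ctm N) : LogOn M N := by
  by_cases h1 : N ⊆ H
  · exact t.sH.logOn hN h1
  · by_cases h2 : N ⊆ K
    · exact t.sK.logOn hN h2
    · obtain ⟨b, hbN, hbH⟩ := not_subset.1 h1
      obtain ⟨a, haN, haK⟩ := not_subset.1 h2
      have haH : a ∈ H := by
        have : a ∈ H ∪ K := by rw [t.hu]; exact mem_univ a
        exact this.resolve_right haK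
      have hbK : b ∈ K := by
        have : b ∈ H ∪ K := by rw [t.hu]; exact mem_univ b
        exact this.resolve_left hbH
      have hNH : IsCompact (N ∩ H) := hN.1.inter t.hH.1
      have hNK : IsCompact (N ∩ K) := hN.1.inter t.hK.1
      have e1 := t.inter_eq hN haN haH haK hbN hbK hbH
      have e2 := t.symm.inter_eq hN hbN hbK hbH haN haH haK
      have c1 : Ctm (N ∩ H) := by rw [e1]; exact ctm_component hNH ⟨haN, haH⟩
      have c2 : Ctm (N ∩ K) := by rw [e2]; exact ctm_component hNK ⟨hbN, hbK⟩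
      obtain ⟨m, hm1, hm2⟩ := t.comps_meet hN haN haH haK hbN hbK hbH
      rw [← e1] at hm1
      rw [← e2] at hm2
      have hpre : IsPreconnected (N ∩ K ∩ (H ∩ K)) := by
        apply unicoh_of_log c2 t.hI
        apply t.sK.logOn (ctm_union c2 t.hI ⟨m, hm2, hm1.2, hm2.2⟩)
        exact union_subset inter_subset_right inter_subset_right
      have e3 : N ∩ H ∩ (N ∩ K) = N ∩ K ∩ (H ∩ K) := by
        ext x; simp only [mem_inter_iff]; tauto
      have e4 : N = (N ∩ H) ∪ (N ∩ K) := by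
        rw [← inter_union_distrib_left, t.hu, inter_univ]
      rw [e4]
      exact log_glue c1.1.isClosed c2.1.isClosed (by rw [e3]; exact hpre)
        (t.sH.logOn c1 inter_subset_right) (t.sK.logOn c2 inter_subset_right)

theorem good_of_logOn_noTriod (hlog : ∀ N : Set M, Ctm N → LogOn M N) (hnt : NoTriod M) :
    Good M := by
  refine ⟨fun hS hSc => hlog _ ⟨hS.isCompact, hSc⟩, ?_⟩
  intro A B C hA hB hC ho
  by_contra hcon
  push Not at hcon
  obtain ⟨h1, h2, h3⟩ := hcon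
  obtain ⟨o, ⟨hoA, hoB⟩, hoC⟩ := ho
  have cAB : Ctm (A ∩ B) := ⟨hA.1.inter hB.1, ⟨o, hoA, hoB⟩, unicoh_of_log hA hB
    (hlog _ (ctm_union hA hB ⟨o, hoA, hoB⟩))⟩
  have cBC : Ctm (B ∩ C) := ⟨hB.1.inter hC.1, ⟨o, hoB, hoC⟩, unicoh_of_log hB hC
    (hlog _ (ctm_union hB hC ⟨o, hoB, hoC⟩))⟩
  have cAC : Ctm (A ∩ C) := ⟨hA.1.inter hC.1, ⟨o, hoA, hoC⟩, unicoh_of_log hA hC
    (hlog _ (ctm_union hA hC ⟨o, hoA, hoC⟩))⟩
  have cI : Ctm ((A ∩ B) ∪ (B ∩ C) ∪ (A ∩ C)) :=
    ctm_union (ctm_union cAB cBC ⟨o, ⟨hoA, hoB⟩, hoB, hoC⟩) cAC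
      ⟨o, Or.inl ⟨hoA, hoB⟩, hoA, hoC⟩
  refine hnt.arms cI hA hB hC ⟨o, Or.inl (Or.inl ⟨hoA, hoB⟩), hoA⟩
    ⟨o, Or.inl (Or.inl ⟨hoA, hoB⟩), hoB⟩ ⟨o, Or.inl (Or.inl ⟨hoA, hoB⟩), hoC⟩ ?_ ?_ ?_ ?_ ?_ ?_
  · intro h
    apply h1
    intro x hx
    rcases h hx with (h' | h') | h'
    · exact Or.inl h'.2
    · exact Or.inl h'.1
    · exact Or.inr h'.2
  · intro h
    apply h2
    intro x hx
    rcases h hx with (h' | h') | h'
    · exact Or.inl h'.1
    · exact Or.inr h'.2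
    · exact Or.inl h'.1
  · intro h
    apply h3
    intro x hx
    rcases h hx with (h' | h') | h'
    · exact Or.inl h'.1
    · exact Or.inr h'.1
    · exact Or.inl h'.1
  · intro x hx; exact Or.inl (Or.inl hx)
  · intro x hx; exact Or.inr hx
  · intro x hx; exact Or.inl (Or.inr hx)

theorem Two.good (t : Two H K) : Good M := good_of_logOn_noTriod (fun _ hN => t.logOn hN) t.nt

/-- In a good space, a continuum off the diagonal with comparable projections gives an
indecomposable one: minimal such continua have indecomposable projection. -/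
theorem Good.side (hM : Good M) {Y : Set (M × M)} (hY : Ctm Y)
    (hYe : Prod.fst '' Y = Prod.snd '' Y)
    (hmin : ∀ C ⊆ Y, Ctm C → (Prod.fst '' C ⊆ Prod.snd '' C ∨ Prod.snd '' C ⊆ Prod.fst '' C) →
      C = Y) {A B : Set M} (hA : Ctm A) (hB : Ctm B) (hAB : A ∪ B = Prod.fst '' Y) :
    A = Prod.fst '' Y ∨ B = Prod.fst '' Y := by
  by_contra hcon
  push Not at hcon
  have hr : ∃ r ∈ B, r ∉ A := by
    by_contra h
    push Not at h
    apply hcon.1
    rw [← hAB]
    exact (union_eq_left.2 h).symm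
  have hl : ∃ l ∈ A, l ∉ B := by
    by_contra h
    push Not at h
    apply hcon.2
    rw [← hAB]
    exact (union_eq_right.2 h).symm
  have hN : Ctm (Prod.fst '' Y) := hY.image continuous_fst.continuousOn
  have hne : (A ∩ B).Nonempty := by
    have hpc := hN.2.isPreconnected
    rw [isPreconnected_closed_iff] at hpc
    obtain ⟨l, hl, hl'⟩ := hl
    obtain ⟨r, hr, hr'⟩ := hr
    obtain ⟨x, -, hx⟩ := hpc A B hA.1.isClosed hB.1.isClosed (by rw [hAB])
      ⟨l, by rw [← hAB]; exact Or.inl hl, hl⟩ ⟨r, by rw [← hAB]; exact Or.inr hr, hr⟩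
    exact ⟨x, hx⟩
  have c : Ctx (Prod.fst : M × M → M) Prod.snd A B Y :=
    ⟨hM, continuous_fst, continuous_snd, hA, hB, ctm_inter hM hA hB hne, hl, hr, hY, hAB.symm,
      by rw [← hYe]; exact hAB.symm, hmin⟩
  exact c.false

/-- the union theorem -/
theorem Two.span (t : Two H K) {Z : Set (M × M)} (hZ : Ctm Z)
    (h : Prod.fst '' Z = Prod.snd '' Z) : ∃ p ∈ Z, p.1 = p.2 := by
  by_contra hd
  push Not at hd
  have hM := t.good
  obtain ⟨Y, hYZ, hY, hYe, hYd, hmin⟩ := minimal_both hM hZ (by rw [h]) hd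
  have hN : Ctm (Prod.fst '' Y) := hY.image continuous_fst.continuousOn
  have hYsub : ∀ {A : Set M}, Prod.fst '' Y ⊆ A → Y ⊆ A ×ˢ A := by
    intro A hA p hp
    refine ⟨hA ⟨p, hp, rfl⟩, hA ?_⟩
    rw [hYe]; exact ⟨p, hp, rfl⟩
  by_cases h1 : Prod.fst '' Y ⊆ H
  · obtain ⟨p, hp, hpe⟩ := t.sH Y hY.1 hY.2 (hYsub h1) hYe
    exact hYd p hp hpe
  · by_cases h2 : Prod.fst '' Y ⊆ K
    · obtain ⟨p, hp, hpe⟩ := t.sK Y hY.1 hY.2 (hYsub h2) hYe
      exact hYd p hp hpe
    · obtain ⟨b, hbN, hbH⟩ := not_subset.1 h1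
      obtain ⟨a, haN, haK⟩ := not_subset.1 h2
      have haH : a ∈ H := by
        have : a ∈ H ∪ K := by rw [t.hu]; exact mem_univ a
        exact this.resolve_right haK
      have hbK : b ∈ K := by
        have : b ∈ H ∪ K := by rw [t.hu]; exact mem_univ b
        exact this.resolve_left hbH
      have c1 : Ctm (Prod.fst '' Y ∩ H) := ctm_inter hM hN t.hH ⟨a, haN, haH⟩
      have c2 : Ctm (Prod.fst '' Y ∩ K) := ctm_inter hM hN t.hK ⟨b, hbN, hbK⟩
      rcases hM.side hY hYe hmin c1 c2 (by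
        rw [← inter_union_distrib_left, t.hu, inter_univ]) with h' | h'
      · rw [← h'] at hbN; exact hbH hbN.2
      · rw [← h'] at haN; exact haK haN.2

end

end Pool.Agent.H963CF.L739.CG
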