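import Pool.Agent.H963CF.L739.CTLog

set_option autoImplicit false

namespace Pool.Agent.H963CF.L739.CT

open Set Topology

/-- span zero for a space -/
def SpanZero (M : Type*) [TopologicalSpace M] : Prop :=
  ∀ Z : Set (M × M), IsCompact Z → IsConnected Z → Prod.fst '' Z = Prod.snd '' Z →
    ∃ p ∈ Z, p.1 = p.2

section

variable {N : Type*} [TopologicalSpace N] [CompactSpace N] [T2Space N] [ConnectedSpace N]

omit [T2Space N] in
theorem log_of_vertical_one {G : N × N → Circle} (hG : Continuous G) (hd : ∀ x, G (x, x) = 1)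
    {x0 : N} (hx0 : ∀ y, G (x0, y) = 1) : HasLog G := by
  have h0 : HasLog (fun t => G (x0, t)) := by
    have : (fun t => G (x0, t)) = fun _ => (1 : Circle) := funext hx0
    rw [this]; exact hasLog_one
  obtain ⟨L, hL, hL', -⟩ := fam_log hG (fam_all hG h0) continuous_id hd
  exact ⟨L, hL, hL'⟩

omit [T2Space N] in
theorem log_of_horizontal_one {G : N × N → Circle} (hG : Continuous G) (hd : ∀ x, G (x, x) = 1)
    {y0 : N} (hy0 : ∀ x, G (x, y0) = 1) : HasLog G := by
  have := log_of_vertical_one (G := fun p => G (p.2, p.1)) (hG.comp (continuous_snd.prodMk continuous_fst))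
    hd hy0
  exact this.comp (f := fun p : N × N => (p.2, p.1)) (continuous_snd.prodMk continuous_fst)

/-- clopen decomposition predicate -/
def Split {X : Type*} [TopologicalSpace X] (W P Q : Set X) : Prop :=
  IsClosed P ∧ IsClosed Q ∧ P ∪ Q = W ∧ Disjoint P Q

theorem Split.left_subset {X : Type*} [TopologicalSpace X] {W P Q : Set X} (h : Split W P Q) :
    P ⊆ W := by rw [← h.2.2.1]; exact subset_union_left

theorem Split.right_subset {X : Type*} [TopologicalSpace X] {W P Q : Set X} (h : Split W P Q) :
    Q ⊆ W := by rw [← h.2.2.1]; exact subset_union_right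

theorem Split.symm {X : Type*} [TopologicalSpace X] {W P Q : Set X} (h : Split W P Q) :
    Split W Q P := ⟨h.2.1, h.1, by rw [union_comm]; exact h.2.2.1, h.2.2.2.symm⟩

theorem Split.inter {X : Type*} [TopologicalSpace X] {W P Q B C : Set X} (h : Split W P Q)
    (h' : Split W B C) : Split W (B ∩ P) (C ∪ (B ∩ Q)) := by
  refine ⟨h'.1.inter h.1, h'.2.1.union (h'.1.inter h.2.1), ?_, ?_⟩
  · apply Subset.antisymm
    · rintro x (⟨hx, -⟩ | hx | ⟨hx, -⟩)
      · exact h'.left_subset hx
      · exact h'.right_subset hx
      · exact h'.left_subset hx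
    · intro x hx
      have h1 : x ∈ P ∪ Q := by rw [h.2.2.1]; exact hx
      have h2 : x ∈ B ∪ C := by rw [h'.2.2.1]; exact hx
      rcases h2 with h2 | h2
      · rcases h1 with h1 | h1
        · left; exact ⟨h2, h1⟩
        · right; right; exact ⟨h2, h1⟩
      · right; left; exact h2
  · rw [disjoint_left]
    rintro x ⟨hxB, hxP⟩ (hx | ⟨-, hx⟩)
    · exact disjoint_left.1 h'.2.2.2 hxB hx
    · exact disjoint_left.1 h.2.2.2 hxP hx

theorem log_of_spanZero (hN : SpanZero N) {g : N → Circle} (hg : Continuous g) : HasLog g := by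
  classical
  set G : N × N → Circle := fun p => g p.1 / g p.2 with hGdef
  have hG : Continuous G := (hg.comp continuous_fst).div' (hg.comp continuous_snd)
  have hGd : ∀ x, G (x, x) = 1 := by intro x; simp [hGdef]
  have hnd : ∀ x, (x, x) ∉ bad G := by
    intro x hx
    have h1 : ((G (x, x) : Circle) : ℂ).re ≤ 0 := hx
    rw [hGd] at h1
    simp at h1
    linarith
  have hpd : ∀ A x, piece G A (x, x) = 1 := fun A x => piece_of_notMem_bad (hnd x)
  have hW : IsClosed (bad G) := isClosed_bad hG
  -- the good property
  have good_v : ∀ x0 : N, ∀ A B, Split (bad G) A B → (∀ y, (x0, y) ∉ A) → HasLog (piece G A) := by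
    intro x0 A B hAB hA
    exact log_of_vertical_one (continuous_piece hG hAB.1 hAB.2.1 hAB.2.2.2 hAB.2.2.1) (hpd A)
      (x0 := x0) (fun y => piece_of_notMem (hA y))
  have good_h : ∀ y0 : N, ∀ A B, Split (bad G) A B → (∀ x, (x, y0) ∉ A) → HasLog (piece G A) := by
    intro y0 A B hAB hA
    exact log_of_horizontal_one (continuous_piece hG hAB.1 hAB.2.1 hAB.2.2.2 hAB.2.2.1) (hpd A)
      (y0 := y0) (fun y => piece_of_notMem (hA y))
  have key : ∃ P Q, Split (bad G) P Q ∧ bad G ⊆ P ∧
      ∀ B C, Split (bad G) B C → B ⊆ P → HasLog (piece G B) := by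
    refine IsCompact.induction_on (s := bad G) (p := fun S => ∃ P Q, Split (bad G) P Q ∧ S ⊆ P ∧
      ∀ B C, Split (bad G) B C → B ⊆ P → HasLog (piece G B)) hW.isCompact ?_ ?_ ?_ ?_
    · refine ⟨∅, bad G, ⟨isClosed_empty, hW, by simp, by simp⟩, Subset.rfl, ?_⟩
      intro B C hBC hB
      have : B = ∅ := subset_empty_iff.1 hB
      subst this
      have : piece G ∅ = fun _ => (1 : Circle) := by
        funext p; exact piece_of_notMem (notMem_empty p)
      rw [this]; exact hasLog_one
    · rintro s t hst ⟨P, Q, h1, h2, h3⟩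
      exact ⟨P, Q, h1, hst.trans h2, h3⟩
    · rintro s t ⟨P, Q, h1, h2, h3⟩ ⟨P', Q', h1', h2', h3'⟩
      refine ⟨P ∪ P', Q ∩ Q', ⟨h1.1.union h1'.1, h1.2.1.inter h1'.2.1, ?_, ?_⟩,
        union_subset_union h2 h2', ?_⟩
      · apply Subset.antisymm
        · rintro x ((hx | hx) | ⟨hx, -⟩)
          · exact h1.left_subset hx
          · exact h1'.left_subset hx
          · exact h1.right_subset hx
        · intro x hx
          have e1 : x ∈ P ∪ Q := by rw [h1.2.2.1]; exact hx
          have e2 : x ∈ P' ∪ Q' := by rw [h1'.2.2.1]; exact hx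
          rcases e1 with e1 | e1
          · left; left; exact e1
          · rcases e2 with e2 | e2
            · left; right; exact e2
            · right; exact ⟨e1, e2⟩
      · rw [disjoint_left]
        rintro x (hx | hx) ⟨hq, hq'⟩
        · exact disjoint_left.1 h1.2.2.2 hx hq
        · exact disjoint_left.1 h1'.2.2.2 hx hq'
      · intro B C hBC hB
        have s1 := h1.inter hBC
        have s2 := h1.symm.inter hBC
        have l1 := h3 _ _ s1 inter_subset_right
        have l2 := h3' _ _ s2 (by
          rintro x ⟨hx, hxQ⟩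
          rcases hB hx with h | h
          · exact absurd hxQ (disjoint_left.1 h1.2.2.2 h)
          · exact h)
        have := l1.mul l2
        have e : piece G B = fun p => piece G (B ∩ P) p * piece G (B ∩ Q) p := by
          funext p
          have hB' : B = (B ∩ P) ∪ (B ∩ Q) := by
            rw [← inter_union_distrib_left, h1.2.2.1]
            exact (inter_eq_left.2 hBC.left_subset).symm
          conv_lhs => rw [hB']
          apply piece_union
          exact (h1.2.2.2.mono inter_subset_right inter_subset_right)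
        rw [e]; exact this
    · intro p hp
      have hC := ctm_component hW.isCompact hp
      have hCW := connectedComponentIn_subset (bad G) p
      -- the component misses a slice
      have hmiss : (∃ x0 : N, connectedComponentIn (bad G) p ∩ {q | q.1 = x0} = ∅) ∨
          (∃ y0 : N, connectedComponentIn (bad G) p ∩ {q | q.2 = y0} = ∅) := by
        by_contra hcon
        push Not at hcon
        obtain ⟨h1, h2⟩ := hcon
        obtain ⟨q, hq, hq'⟩ := hN _ hC.1 hC.2 (by
          rw [show Prod.fst '' (connectedComponentIn (bad G) p) = univ from ?_,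
            show Prod.snd '' (connectedComponentIn (bad G) p) = univ from ?_]
          · rw [eq_univ_iff_forall]
            intro y
            obtain ⟨q, hq, hq'⟩ := h2 y
            exact ⟨q, hq, hq'⟩
          · rw [eq_univ_iff_forall]
            intro x
            obtain ⟨q, hq, hq'⟩ := h1 x
            exact ⟨q, hq, hq'⟩)
        have := hCW hq
        obtain ⟨u, v⟩ := q
        simp only at hq'
        subst hq'
        exact hnd u this
      rcases hmiss with ⟨x0, hx0⟩ | ⟨y0, hy0⟩
      · have hcl : IsClosed {q : N × N | q.1 = x0} := isClosed_eq continuous_fst continuous_const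
        obtain ⟨P, Q, h1, h2, h3, h4, h5, h6⟩ := clopen_nhd_component hW.isCompact hp hcl hx0
        refine ⟨P, ?_, P, Q, ⟨h1.isClosed, h2.isClosed, h3, h4⟩, Subset.rfl, ?_⟩
        · have hQ : Qᶜ ∈ 𝓝 p := by
            apply h2.isClosed.isOpen_compl.mem_nhds
            intro hpQ
            exact disjoint_left.1 h4 (h5 (mem_connectedComponentIn hp)) hpQ
          rw [mem_nhdsWithin_iff_exists_mem_nhds_inter]
          refine ⟨Qᶜ, hQ, ?_⟩
          rintro x ⟨hxQ, hx⟩
          rw [← h3] at hx
          exact hx.resolve_right hxQ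
        · intro B C hBC hB
          apply good_v x0 B C hBC
          intro y hy
          have hyP : (x0, y) ∈ P := hB hy
          exact disjoint_left.1 h4 hyP (h6 ⟨hBC.left_subset hy, rfl⟩)
      · have hcl : IsClosed {q : N × N | q.2 = y0} := isClosed_eq continuous_snd continuous_const
        obtain ⟨P, Q, h1, h2, h3, h4, h5, h6⟩ := clopen_nhd_component hW.isCompact hp hcl hy0
        refine ⟨P, ?_, P, Q, ⟨h1.isClosed, h2.isClosed, h3, h4⟩, Subset.rfl, ?_⟩
        · have hQ : Qᶜ ∈ 𝓝 p := by
            apply h2.isClosed.isOpen_compl.mem_nhds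
            intro hpQ
            exact disjoint_left.1 h4 (h5 (mem_connectedComponentIn hp)) hpQ
          rw [mem_nhdsWithin_iff_exists_mem_nhds_inter]
          refine ⟨Qᶜ, hQ, ?_⟩
          rintro x ⟨hxQ, hx⟩
          rw [← h3] at hx
          exact hx.resolve_right hxQ
        · intro B C hBC hB
          apply good_h y0 B C hBC
          intro y hy
          have hyP : (y, y0) ∈ P := hB hy
          exact disjoint_left.1 h4 hyP (h6 ⟨hBC.left_subset hy, rfl⟩)
  obtain ⟨P, Q, hPQ, hP, hlog⟩ := key
  have hfull : HasLog (piece G (bad G)) :=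
    hlog (bad G) ∅ ⟨hW, isClosed_empty, by simp, by simp⟩ hP
  obtain ⟨l, hl, hl'⟩ := hfull
  obtain ⟨y0⟩ : Nonempty N := inferInstance
  refine ⟨fun x => l (x, y0) + al (G (x, y0)) + Complex.arg (g y0), ?_, ?_⟩
  · apply Continuous.add _ continuous_const
    exact (hl.comp (continuous_id.prodMk continuous_const)).add
      ((continuous_al.comp hG).comp (continuous_id.prodMk continuous_const))
  · intro x
    rw [Circle.exp_add, Circle.exp_add, hl', exp_arg, piece_bad_mul]
    simp [hGdef]

end

section sets

variable {M : Type*} [TopologicalSpace M]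

theorem SpanZero.subtype (hM : SpanZero M) (S : Set M) : SpanZero S := by
  intro Z hZc hZ he
  set Z' : Set (M × M) := Prod.map Subtype.val Subtype.val '' Z with hZ'
  have hcont : Continuous (Prod.map Subtype.val Subtype.val : S × S → M × M) :=
    continuous_subtype_val.prodMap continuous_subtype_val
  obtain ⟨p, hp, hpe⟩ := hM Z' (hZc.image hcont) (hZ.image _ hcont.continuousOn) (by
    rw [hZ', image_image, image_image]
    simp only [Prod.map_fst, Prod.map_snd]
    rw [← image_image Subtype.val Prod.fst, ← image_image Subtype.val Prod.snd, he])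
  obtain ⟨q, hq, rfl⟩ := hp
  exact ⟨q, hq, Subtype.val_injective hpe⟩

theorem log_on [CompactSpace M] [T2Space M] (hM : SpanZero M) {S : Set M} (hS : IsClosed S)
    (hSc : IsConnected S) {g : M → Circle} (hg : ContinuousOn g S) :
    ∃ l : M → ℝ, ContinuousOn l S ∧ ∀ x ∈ S, Circle.exp (l x) = g x := by
  classical
  have : CompactSpace S := isCompact_iff_compactSpace.1 hS.isCompact
  have : ConnectedSpace S := isConnected_iff_connectedSpace.1 hSc
  obtain ⟨l, hl, hl'⟩ := log_of_spanZero (hM.subtype S) (g := fun x : S => g x)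
    (continuousOn_iff_continuous_domRestrict.1 hg)
  refine ⟨fun x => if h : x ∈ S then l ⟨x, h⟩ else 0, ?_, ?_⟩
  · rw [continuousOn_iff_continuous_domRestrict]
    convert hl using 1
    funext x
    simp
  · intro x hx
    simp only [hx, dif_pos]
    exact hl' ⟨x, hx⟩

end sets

end Pool.Agent.H963CF.L739.CT
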